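import Pool.Agent.OC3.Defs

/-!
# The chain of a tour is a reduced interval in which every vertex labels at most two edges
-/

set_option autoImplicit false

open scoped BigOperators

namespace Pool.Agent.OC

open Pool.Agent.FoxAsph Pool.Agent.WT Pool.Agent.RelGap Pool.Agent.ZO

namespace ChainGood

theorem uniq {B s₁ r₁ s₂ r₂ : ℕ} (h : B * s₁ + r₁ = B * s₂ + r₂) (h₁ : r₁ < B) (h₂ : r₂ < B) :
    s₁ = s₂ ∧ r₁ = r₂ := by
  have hB : 0 < B := by omega
  have e1 : (B * s₁ + r₁) / B = s₁ := by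
    rw [Nat.mul_add_div hB, Nat.div_eq_of_lt h₁, add_zero]
  have e2 : (B * s₂ + r₂) / B = s₂ := by
    rw [Nat.mul_add_div hB, Nat.div_eq_of_lt h₂, add_zero]
  have hs : s₁ = s₂ := by rw [← e1, ← e2, h]
  subst hs
  exact ⟨rfl, by omega⟩

variable {F : LOF} (T : Tour F)

theorem cK_pos : 0 < cK T := Nat.succ_pos _

theorem cB_eq : cB T = 4 * cK T + 1 := rfl

theorem cB_pos : 0 < cB T := Nat.succ_pos _

theorem gA_pos {k : ℕ} (hk : k ≠ 0) :
    gA T k = 4 + (cB T * ((k - 1) / cK T) + (4 * ((k - 1) % cK T) + 1)) := by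
  unfold gA cpos
  rw [if_neg hk]
  ring

theorem gB_pos {k : ℕ} (hk : k ≠ 0) :
    gB T k = 4 + (cB T * ((k - 1) / cK T) + (4 * ((k - 1) % cK T) + 3)) := by
  unfold gB cpos
  rw [if_neg hk]
  ring

/-- The normal form of an edge `i ≥ 4`. -/
theorem form {i : ℕ} (h4 : 4 ≤ i) (hi : i < cn T) :
    (∃ k c d : ℕ, c < 2 ∧ d < 2 ∧ k < (T.N + 1) * cK T ∧
      i = 4 + (cB T * (k / cK T) + (4 * (k % cK T) + (2 * d + c))) ∧
      cl T i = if c = 0 then gA T k else gB T k) ∨
    (∃ s : ℕ, s < T.N ∧ i = 4 + (cB T * s + 4 * cK T) ∧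
      cl T i = match T.st (s + 1) with
        | some (e, _) => 4 + cB T * T.fst (F.label e) + 2 * (s + 1)
        | none => 0) := by
  have hK := cK_pos T
  have hB := cB_pos T
  have hBe := cB_eq T
  set s := (i - 4) / cB T with hs
  set r := (i - 4) % cB T with hr
  have hdm : cB T * s + r = i - 4 := Nat.div_add_mod _ _
  have hrB : r < cB T := Nat.mod_lt _ hB
  have hsN : s < T.N + 1 := by
    rw [hs, Nat.div_lt_iff_lt_mul hB]
    unfold cn at hi
    omega
  by_cases hr4 : r < 4 * cK T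
  · left
    have hq : r / 4 < cK T := by omega
    have hk1 : (cK T * s + r / 4) / cK T = s := by
      rw [Nat.mul_add_div hK, Nat.div_eq_of_lt hq, add_zero]
    have hk2 : (cK T * s + r / 4) % cK T = r / 4 := by
      rw [Nat.mul_add_mod, Nat.mod_eq_of_lt hq]
    refine ⟨cK T * s + r / 4, r % 2, r % 4 / 2, by omega, by omega, ?_, ?_, ?_⟩
    · calc cK T * s + r / 4 < cK T * s + cK T := by omega
        _ = (s + 1) * cK T := by ring
        _ ≤ (T.N + 1) * cK T := Nat.mul_le_mul_right _ hsN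
    · rw [hk1, hk2]
      omega
    · unfold cl
      rw [if_neg (by omega), if_neg (by omega), if_neg (by omega), if_neg (by omega), ← hs, ← hr,
        if_pos hr4, mul_comm s (cK T)]
  · right
    have hr5 : r = 4 * cK T := by omega
    refine ⟨s, ?_, by omega, ?_⟩
    · by_contra hcon
      have hsN' : s = T.N := by omega
      have h1 : cB T * T.N + 4 * cK T = i - 4 := by rw [← hsN', ← hr5]; exact hdm
      have h2 : (T.N + 1) * cB T = cB T * T.N + cB T := by ring
      unfold cn at hi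
      omega
    · unfold cl
      rw [if_neg (by omega), if_neg (by omega), if_neg (by omega), if_neg (by omega), ← hs, ← hr,
        if_neg hr4]
      rcases T.st (s + 1) with _ | ⟨e, b⟩ <;> rfl

theorem div_le_N {k : ℕ} (hk : k < (T.N + 1) * cK T) : k / cK T ≤ T.N := by
  have := (Nat.div_lt_iff_lt_mul (cK_pos T)).2 hk
  omega

theorem mulB_le {s : ℕ} (h : s ≤ T.N) : cB T * s ≤ cB T * T.N := Nat.mul_le_mul_left _ h

theorem cn_eq : cn T = 3 + (cB T * T.N + cB T) := by
  unfold cn
  ring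

theorem gA_le {k : ℕ} (hk : k < (T.N + 1) * cK T) : gA T k ≤ cn T := by
  have hBe := cB_eq T
  have hK := cK_pos T
  have hn := cn_eq T
  by_cases h0 : k = 0
  · subst h0
    show (if (0 : ℕ) = 0 then 2 else _) ≤ _
    rw [if_pos rfl]
    omega
  · rw [gA_pos T h0]
    have h1 := mulB_le T (div_le_N T (k := k - 1) (by omega))
    have h2 := Nat.mod_lt (k - 1) hK
    omega

theorem gB_le {k : ℕ} (hk : k < (T.N + 1) * cK T) : gB T k ≤ cn T := by
  have hBe := cB_eq T
  have hK := cK_pos T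
  have hn := cn_eq T
  by_cases h0 : k = 0
  · subst h0
    show (if (0 : ℕ) = 0 then 3 else _) ≤ _
    rw [if_pos rfl]
    omega
  · rw [gB_pos T h0]
    have h1 := mulB_le T (div_le_N T (k := k - 1) (by omega))
    have h2 := Nat.mod_lt (k - 1) hK
    omega

theorem cK_eq : cK T = T.N + 1 := rfl

theorem small {i : ℕ} (h : i < 4) :
    (i = 0 ∧ cl T i = 4) ∨ (i = 1 ∧ cl T i = 0) ∨ (i = 2 ∧ cl T i = 4) ∨ (i = 3 ∧ cl T i = 1) := by
  have : i = 0 ∨ i = 1 ∨ i = 2 ∨ i = 3 := by omega
  rcases this with rfl | rfl | rfl | rfl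
  · exact Or.inl ⟨rfl, rfl⟩
  · exact Or.inr (Or.inl ⟨rfl, rfl⟩)
  · exact Or.inr (Or.inr (Or.inl ⟨rfl, rfl⟩))
  · exact Or.inr (Or.inr (Or.inr ⟨rfl, rfl⟩))

end ChainGood

open ChainGood

variable {F : LOF}

theorem cl_le (T : Tour F) : ∀ i < cn T, cl T i ≤ cn T := by
  intro i hi
  have hBe := cB_eq T
  have hKe := cK_eq T
  have hn := cn_eq T
  by_cases h4 : i < 4
  · rcases small T h4 with ⟨_, h⟩ | ⟨_, h⟩ | ⟨_, h⟩ | ⟨_, h⟩ <;> omega
  · rcases form T (by omega) hi with ⟨k, c, d, _, _, hk, _, h⟩ | ⟨s, hs, _, h⟩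
    · rw [h]
      split_ifs
      · exact gA_le T hk
      · exact gB_le T hk
    · rw [h]
      rcases hst : T.st (s + 1) with _ | ⟨e, b⟩
      · exact Nat.zero_le _
      · have h1 := mulB_le T (T.fst_le (F.label e))
        show 4 + cB T * T.fst (F.label e) + 2 * (s + 1) ≤ cn T
        omega

namespace ChainGood

/-- The value of a label of an edge `i ≥ 4`. -/
theorem val (T : Tour F) (hT : ∀ s < T.N, T.st (s + 1) ≠ none) {i : ℕ} (h4 : 4 ≤ i)
    (hi : i < cn T) :
    (∃ c d : ℕ, c < 2 ∧ d < 2 ∧ i = 4 + (2 * d + c) ∧ cl T i = 2 + c) ∨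
    (∃ k c d : ℕ, c < 2 ∧ d < 2 ∧
      i = 4 + (cB T * ((k + 1) / cK T) + (4 * ((k + 1) % cK T) + (2 * d + c))) ∧
      cl T i = 4 + (cB T * (k / cK T) + (4 * (k % cK T) + (1 + 2 * c)))) ∨
    (∃ s f : ℕ, s < T.N ∧ i = 4 + (cB T * s + 4 * cK T) ∧
      cl T i = 4 + (cB T * f + 2 * (s + 1))) := by
  rcases form T h4 hi with ⟨k, c, d, hc, hd, hk, hi', h⟩ | ⟨s, hs, hi', h⟩
  · rcases Nat.eq_zero_or_pos k with h0 | h0
    · left
      subst h0
      refine ⟨c, d, hc, hd, ?_, ?_⟩
      · rw [hi']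
        simp
      · rw [h]
        have : c = 0 ∨ c = 1 := by omega
        rcases this with rfl | rfl
        · rfl
        · rfl
    · right
      left
      obtain ⟨k, rfl⟩ : ∃ k', k = k' + 1 := ⟨k - 1, by omega⟩
      refine ⟨k, c, d, hc, hd, hi', ?_⟩
      rw [h]
      have : c = 0 ∨ c = 1 := by omega
      rcases this with rfl | rfl
      · rw [if_pos rfl, gA_pos T (Nat.succ_ne_zero k)]
        rfl
      · rw [if_neg (by norm_num), gB_pos T (Nat.succ_ne_zero k)]
        rfl
  · right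
    right
    rcases hst : T.st (s + 1) with _ | ⟨e, b⟩
    · exact absurd hst (hT s hs)
    · refine ⟨s, T.fst (F.label e), hs, hi', ?_⟩
      rw [h, hst]
      show 4 + cB T * T.fst (F.label e) + 2 * (s + 1) = _
      ring

/-- Two edges with the same label have distance two. -/
theorem dist_two (T : Tour F) (hT : ∀ s < T.N, T.st (s + 1) ≠ none) {i j : ℕ} (hij : i < j)
    (hj : j < cn T) (h : cl T i = cl T j) : j = i + 2 := by
  have hBe := cB_eq T
  have hKe := cK_eq T
  have hK := cK_pos T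
  by_cases hj4 : j < 4
  · rcases small T hj4 with ⟨h1, h2⟩ | ⟨h1, h2⟩ | ⟨h1, h2⟩ | ⟨h1, h2⟩ <;>
      rcases small T (show i < 4 by omega) with ⟨h3, h5⟩ | ⟨h3, h5⟩ | ⟨h3, h5⟩ | ⟨h3, h5⟩ <;> omega
  · by_cases hi4 : i < 4
    · rcases small T hi4 with ⟨h3, h5⟩ | ⟨h3, h5⟩ | ⟨h3, h5⟩ | ⟨h3, h5⟩ <;>
        rcases val T hT (show 4 ≤ j by omega) hj with ⟨c, d, hc, hd, h1, h2⟩ |
          ⟨k, c, d, hc, hd, h1, h2⟩ | ⟨s, f, hs, h1, h2⟩ <;> omega
    · rcases val T hT (show 4 ≤ i by omega) (hij.trans hj) with ⟨c, d, hc, hd, h1, h2⟩ |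
          ⟨k, c, d, hc, hd, h1, h2⟩ | ⟨s, f, hs, h1, h2⟩
      · rcases val T hT (show 4 ≤ j by omega) hj with ⟨c', d', hc', hd', h1', h2'⟩ |
          ⟨k', c', d', hc', hd', h1', h2'⟩ | ⟨s', f', hs', h1', h2'⟩ <;> omega
      · have hm := Nat.mod_lt k hK
        rcases val T hT (show 4 ≤ j by omega) hj with ⟨c', d', hc', hd', h1', h2'⟩ |
          ⟨k', c', d', hc', hd', h1', h2'⟩ | ⟨s', f', hs', h1', h2'⟩
        · omega
        · have hm' := Nat.mod_lt k' hK
          obtain ⟨e1, e2⟩ := uniq (B := cB T) (s₁ := k / cK T) (r₁ := 4 * (k % cK T) + (1 + 2 * c))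
            (s₂ := k' / cK T) (r₂ := 4 * (k' % cK T) + (1 + 2 * c')) (by omega) (by omega) (by omega)
          have e3 : k % cK T = k' % cK T := by omega
          have e4 : c = c' := by omega
          have e5 : k = k' := by
            rw [← Nat.div_add_mod k (cK T), ← Nat.div_add_mod k' (cK T), e1, e3]
          subst e5
          omega
        · exfalso
          obtain ⟨e1, e2⟩ := uniq (B := cB T) (s₁ := k / cK T) (r₁ := 4 * (k % cK T) + (1 + 2 * c))
            (s₂ := f') (r₂ := 2 * (s' + 1)) (by omega) (by omega) (by omega)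
          omega
      · rcases val T hT (show 4 ≤ j by omega) hj with ⟨c', d', hc', hd', h1', h2'⟩ |
          ⟨k', c', d', hc', hd', h1', h2'⟩ | ⟨s', f', hs', h1', h2'⟩
        · omega
        · exfalso
          have hm' := Nat.mod_lt k' hK
          obtain ⟨e1, e2⟩ := uniq (B := cB T) (s₁ := f) (r₁ := 2 * (s + 1))
            (s₂ := k' / cK T) (r₂ := 4 * (k' % cK T) + (1 + 2 * c')) (by omega) (by omega) (by omega)
          omega
        · exfalso
          obtain ⟨e1, e2⟩ := uniq (B := cB T) (s₁ := f) (r₁ := 2 * (s + 1))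
            (s₂ := f') (r₂ := 2 * (s' + 1)) (by omega) (by omega) (by omega)
          have e3 : s = s' := by omega
          subst e3
          omega

end ChainGood

theorem cl_ne (T : Tour F) (hT : ∀ s < T.N, T.st (s + 1) ≠ none) :
    ∀ i < cn T, cl T i ≠ i ∧ cl T i ≠ i + 1 := by
  intro i hi
  have hBe := cB_eq T
  have hKe := cK_eq T
  have hK := cK_pos T
  by_cases h4 : i < 4
  · rcases small T h4 with ⟨h1, h2⟩ | ⟨h1, h2⟩ | ⟨h1, h2⟩ | ⟨h1, h2⟩ <;> omega
  · rcases val T hT (show 4 ≤ i by omega) hi with ⟨c, d, hc, hd, h1, h2⟩ |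
      ⟨k, c, d, hc, hd, h1, h2⟩ | ⟨s, f, hs, h1, h2⟩
    · omega
    · -- the label is smaller than the edge
      have hm := Nat.mod_lt k hK
      have hlt : cB T * (k / cK T) + (4 * (k % cK T) + 3) <
          cB T * ((k + 1) / cK T) + 4 * ((k + 1) % cK T) := by
        by_cases hc2 : k % cK T + 1 < cK T
        · have e1 : (k + 1) / cK T = k / cK T := by
            have : k + 1 = cK T * (k / cK T) + (k % cK T + 1) := by
              have := Nat.div_add_mod k (cK T)
              omega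
            rw [this, Nat.mul_add_div hK, Nat.div_eq_of_lt hc2, add_zero]
          have e2 : (k + 1) % cK T = k % cK T + 1 := by
            have : k + 1 = cK T * (k / cK T) + (k % cK T + 1) := by
              have := Nat.div_add_mod k (cK T)
              omega
            rw [this, Nat.mul_add_mod, Nat.mod_eq_of_lt hc2]
          rw [e1, e2]
          omega
        · have e0 : k % cK T + 1 = cK T := by omega
          have e3 : k + 1 = cK T * (k / cK T + 1) := by
            have := Nat.div_add_mod k (cK T)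
            rw [mul_add, mul_one]
            omega
          have e1 : (k + 1) / cK T = k / cK T + 1 := by
            rw [e3, Nat.mul_div_cancel_left _ hK]
          have e2 : (k + 1) % cK T = 0 := by
            rw [e3, Nat.mul_mod_right]
          rw [e1, e2, mul_add, mul_one]
          omega
      omega
    · constructor
      · intro hcon
        obtain ⟨e1, e2⟩ := uniq (B := cB T) (s₁ := f) (r₁ := 2 * (s + 1))
            (s₂ := s) (r₂ := 4 * cK T) (by omega) (by omega) (by omega)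
        omega
      · intro hcon
        have e0 : cB T * (s + 1) = cB T * s + cB T := by ring
        obtain ⟨e1, e2⟩ := uniq (B := cB T) (s₁ := f) (r₁ := 2 * (s + 1))
            (s₂ := s + 1) (r₂ := 0) (by omega) (by omega) (by omega)
        omega

/-- **The chain is reduced and every vertex labels at most two edges.** -/
theorem cl_good (T : Tour F) (hT : ∀ s < T.N, T.st (s + 1) ≠ none) :
    (⟨cn T, co T, cl T, cl_le T⟩ : LOI).Good where
  ne := cl_ne T hT
  red := fun i hi _ h => by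
    have := dist_two T hT (Nat.lt_succ_self i) hi h
    omega
  two := fun i j k hij hjk hk h => by
    have h1 := dist_two T hT hij (hjk.trans hk) h.1
    have h2 := dist_two T hT (hij.trans hjk) hk (h.1.trans h.2)
    omega

end Pool.Agent.OC
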