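import Pool.Agent.OC3.Defs
import Pool.Agent.ZO.Fail

/-!
# The chain of a tour: transfer of non-asphericity
-/

set_option autoImplicit false

open scoped BigOperators

namespace Pool.Agent.OC

open Pool.Agent.FoxAsph Pool.Agent.WT Pool.Agent.RelGap Pool.Agent.ZO

/-- the value of the relator of the edge `i` -/
def LOI.ev {G : Type} [Group G] (o : ℕ → Bool) (l : ℕ → ℕ) (θ : ℕ → G) (i : ℕ) : G :=
  if o i = true then θ i * θ (l i) * (θ (i + 1))⁻¹ * (θ (l i))⁻¹
  else θ (i + 1) * θ (l i) * (θ i)⁻¹ * (θ (l i))⁻¹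

theorem LOI.lift_rel (S : LOI) {G : Type} [Group G] (θ : ℕ → G) (i : Fin S.n) :
    FreeGroup.lift (fun m : Fin (S.n + 1) => θ m) (FreeGroup.mk (S.rel i)) =
      LOI.ev S.o S.l θ i := by
  unfold LOI.rel LOI.ev
  by_cases h : S.o i = true
  · rw [if_pos h, if_pos h, lift_four]
    rfl
  · rw [if_neg h, if_neg h, lift_four]
    rfl

section

variable {F : LOF} (T : Tour F)

theorem cB_pos : 0 < cB T := by unfold cB; omega

theorem cK_pos : 0 < cK T := by unfold cK; omega

theorem div_block {s a : ℕ} (h : a < cB T) : (4 + cB T * s + a - 4) / cB T = s := by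
  have h1 : 4 + cB T * s + a - 4 = cB T * s + a := by omega
  rw [h1, Nat.mul_add_div (cB_pos T), Nat.div_eq_of_lt h, add_zero]

theorem mod_block {s a : ℕ} (h : a < cB T) : (4 + cB T * s + a - 4) % cB T = a := by
  have h1 : 4 + cB T * s + a - 4 = cB T * s + a := by omega
  rw [h1, Nat.mul_add_mod, Nat.mod_eq_of_lt h]

theorem cl_ge {i : ℕ} (h : 4 ≤ i) : cl T i = if (i - 4) % cB T < 4 * cK T then
      (if (i - 4) % cB T % 2 = 0 then gA T ((i - 4) / cB T * cK T + (i - 4) % cB T / 4)
        else gB T ((i - 4) / cB T * cK T + (i - 4) % cB T / 4))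
    else match T.st ((i - 4) / cB T + 1) with
      | some (e, _) => 4 + cB T * T.fst (F.label e) + 2 * ((i - 4) / cB T + 1)
      | none => 0 := by
  unfold cl
  rw [if_neg (by omega), if_neg (by omega), if_neg (by omega), if_neg (by omega)]
  rfl

theorem co_ge {i : ℕ} (h : 4 ≤ i) : co T i = if (i - 4) % cB T < 4 * cK T then
      decide ((i - 4) % cB T % 2 = 0)
    else match T.st ((i - 4) / cB T + 1) with
      | some (_, b) => b
      | none => false := by
  unfold co
  rw [if_neg (by omega), if_neg (by omega)]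
  rfl

theorem cl_block {s a : ℕ} (h : a < 4 * cK T) : cl T (4 + cB T * s + a) =
    if a % 2 = 0 then gA T (s * cK T + a / 4) else gB T (s * cK T + a / 4) := by
  have hB : a < cB T := by unfold cB; omega
  rw [cl_ge T (by omega), mod_block T hB, div_block T hB, if_pos h]

theorem co_block {s a : ℕ} (h : a < 4 * cK T) : co T (4 + cB T * s + a) = decide (a % 2 = 0) := by
  have hB : a < cB T := by unfold cB; omega
  rw [co_ge T (by omega), mod_block T hB, if_pos h]

theorem cl_main {s : ℕ} {e : F.E} {b : Bool} (h : T.st (s + 1) = some (e, b)) :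
    cl T (4 + cB T * s + 4 * cK T) = 4 + cB T * T.fst (F.label e) + 2 * (s + 1) := by
  have hB : 4 * cK T < cB T := by unfold cB; omega
  rw [cl_ge T (by omega), mod_block T hB, div_block T hB, if_neg (lt_irrefl _), h]

theorem co_main {s : ℕ} {e : F.E} {b : Bool} (h : T.st (s + 1) = some (e, b)) :
    co T (4 + cB T * s + 4 * cK T) = b := by
  have hB : 4 * cK T < cB T := by unfold cB; omega
  rw [co_ge T (by omega), mod_block T hB, div_block T hB, if_neg (lt_irrefl _), h]

theorem cpos_eq (s b : ℕ) (h : b < cK T) : cpos T (s * cK T + b) = 4 + cB T * s + 4 * b := by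
  unfold cpos
  have h1 : (s * cK T + b) / cK T = s := by
    rw [mul_comm, Nat.mul_add_div (cK_pos T), Nat.div_eq_of_lt h, add_zero]
  have h2 : (s * cK T + b) % cK T = b := by
    rw [mul_comm, Nat.mul_add_mod, Nat.mod_eq_of_lt h]
  rw [h1, h2]

/-- the edges outside the steps of the tour -/
def Side (i : ℕ) : Prop := i < cn T ∧ ∀ s, i ≠ 4 + cB T * s + 4 * cK T

theorem side_block {s a : ℕ} (hs : s ≤ T.N) (ha : a < 4 * cK T) :
    Side T (4 + cB T * s + a) := by
  have hB : a < cB T := by unfold cB; omega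
  have hB' : 4 * cK T < cB T := by unfold cB; omega
  constructor
  · unfold cn
    have h1 : cB T * s ≤ cB T * T.N := Nat.mul_le_mul_left _ hs
    have h2 : (T.N + 1) * cB T = cB T * T.N + cB T := by ring
    rw [h2]
    have h3 : a + 1 < cB T := by unfold cB; omega
    omega
  · intro s' h
    have h1 := mod_block T hB (s := s)
    rw [h, mod_block T hB'] at h1
    omega

variable {G : Type} [Group G] {θ : ℕ → G}

theorem ev_true {o : ℕ → Bool} {l : ℕ → ℕ} {i : ℕ} (ho : o i = true) :
    LOI.ev o l θ i = 1 ↔ θ i * θ (l i) = θ (l i) * θ (i + 1) := by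
  unfold LOI.ev
  rw [if_pos ho, mul_inv_eq_one, mul_inv_eq_iff_eq_mul]

theorem ev_false {o : ℕ → Bool} {l : ℕ → ℕ} {i : ℕ} (ho : o i = false) :
    LOI.ev o l θ i = 1 ↔ θ (i + 1) * θ (l i) = θ (l i) * θ i := by
  unfold LOI.ev
  rw [if_neg (by simp [ho]), mul_inv_eq_one, mul_inv_eq_iff_eq_mul]

/-- the first vertices are equal -/
theorem start_eq (h : ∀ i, Side T i → LOI.ev (co T) (cl T) θ i = 1) :
    θ 2 = θ 3 := by
  have hB : 4 ≤ cB T := by unfold cB cK; omega
  have hside : ∀ i < 4, Side T i := by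
    intro i hi
    constructor
    · unfold cn
      have : cB T ≤ (T.N + 1) * cB T := Nat.le_mul_of_pos_left _ (by omega)
      omega
    · intro s
      omega
  have h0 := (ev_false (o := co T) (l := cl T) (θ := θ) (i := 0) (by unfold co; simp)).1
    (h 0 (hside 0 (by omega)))
  have h1 := (ev_false (o := co T) (l := cl T) (θ := θ) (i := 1) (by unfold co; simp)).1
    (h 1 (hside 1 (by omega)))
  have h2 := (ev_false (o := co T) (l := cl T) (θ := θ) (i := 2) (by unfold co; simp)).1
    (h 2 (hside 2 (by omega)))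
  have h3 := (ev_true (o := co T) (l := cl T) (θ := θ) (i := 3) (by unfold co; simp)).1
    (h 3 (hside 3 (by omega)))
  have l0 : cl T 0 = 4 := by unfold cl; simp
  have l1 : cl T 1 = 0 := by unfold cl; simp
  have l2 : cl T 2 = 4 := by unfold cl; simp
  have l3 : cl T 3 = 1 := by unfold cl; simp
  rw [l0] at h0
  rw [l1] at h1
  rw [l2] at h2
  rw [l3] at h3
  simp only [Nat.zero_add, Nat.reduceAdd] at h0 h1 h2 h3
  -- all of them are equal
  set a := θ 0 with ha
  set d := θ 4 with hd
  have e1 : θ 1 = d * a * d⁻¹ := by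
    rw [eq_mul_inv_iff_mul_eq]
    exact h0
  have e2 : θ 2 = a * θ 1 * a⁻¹ := by
    rw [eq_mul_inv_iff_mul_eq]
    exact h1
  have e3 : θ 3 = d * θ 2 * d⁻¹ := by
    rw [eq_mul_inv_iff_mul_eq]
    exact h2
  have e4 : d = (θ 1)⁻¹ * θ 3 * θ 1 := by
    rw [mul_assoc, eq_inv_mul_iff_mul_eq]
    exact h3.symm
  have key : a = d := by
    rw [e3, e2, e1] at e4
    have h5 : (d * a * d⁻¹)⁻¹ * (d * (a * (d * a * d⁻¹) * a⁻¹) * d⁻¹) * (d * a * d⁻¹) =
        d * d * a * d⁻¹ * d⁻¹ := by group
    rw [h5] at e4
    have h6 : a = d⁻¹ * d⁻¹ * (d * d * a * d⁻¹ * d⁻¹) * d * d := by group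
    rw [h6, ← e4]
    group
  rw [e3, e2, e1, key]
  group

/-- one double detour -/
theorem detour (h : ∀ i, Side T i → LOI.ev (co T) (cl T) θ i = 1) {s b : ℕ} (hs : s ≤ T.N)
    (hb : b < cK T) (hg : θ (gA T (s * cK T + b)) = θ (gB T (s * cK T + b))) :
    θ (4 + cB T * s + 4 * b + 2) = θ (4 + cB T * s + 4 * b) ∧
    θ (4 + cB T * s + 4 * b + 4) = θ (4 + cB T * s + 4 * b) ∧
    θ (4 + cB T * s + 4 * b + 1) = θ (4 + cB T * s + 4 * b + 3) := by
  have k0 : (4 * b) / 4 = b := by omega
  have k1 : (4 * b + 1) / 4 = b := by omega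
  have k2 : (4 * b + 2) / 4 = b := by omega
  have k3 : (4 * b + 3) / 4 = b := by omega
  have p0 : (4 * b) % 2 = 0 := by omega
  have p1 : (4 * b + 1) % 2 = 1 := by omega
  have p2 : (4 * b + 2) % 2 = 0 := by omega
  have p3 : (4 * b + 3) % 2 = 1 := by omega
  set p := 4 + cB T * s with hp
  have l0 : cl T (p + 4 * b) = gA T (s * cK T + b) := by
    rw [hp, cl_block T (by omega), k0, p0, if_pos rfl]
  have l1 : cl T (p + (4 * b + 1)) = gB T (s * cK T + b) := by
    rw [hp, cl_block T (by omega), k1, p1, if_neg (by omega)]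
  have l2 : cl T (p + (4 * b + 2)) = gA T (s * cK T + b) := by
    rw [hp, cl_block T (by omega), k2, p2, if_pos rfl]
  have l3 : cl T (p + (4 * b + 3)) = gB T (s * cK T + b) := by
    rw [hp, cl_block T (by omega), k3, p3, if_neg (by omega)]
  have o0 : co T (p + 4 * b) = true := by
    rw [hp, co_block T (by omega), p0]; rfl
  have o1 : co T (p + (4 * b + 1)) = false := by
    rw [hp, co_block T (by omega), p1]; rfl
  have o2 : co T (p + (4 * b + 2)) = true := by
    rw [hp, co_block T (by omega), p2]; rfl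
  have o3 : co T (p + (4 * b + 3)) = false := by
    rw [hp, co_block T (by omega), p3]; rfl
  have h0 := (ev_true o0).1 (h _ (side_block T hs (by omega)))
  have h1 := (ev_false o1).1 (h _ (side_block T hs (by omega)))
  have h2 := (ev_true o2).1 (h _ (side_block T hs (by omega)))
  have h3 := (ev_false o3).1 (h _ (side_block T hs (by omega)))
  rw [l0] at h0
  rw [l1, ← hg] at h1
  rw [l2] at h2
  rw [l3, ← hg] at h3
  set g := θ (gA T (s * cK T + b)) with hgdef
  have q1 : p + 4 * b + 1 = p + (4 * b + 1) := by omega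
  have q2 : p + (4 * b + 1) + 1 = p + 4 * b + 2 := by omega
  have q2' : p + (4 * b + 2) = p + 4 * b + 2 := by omega
  have q3 : p + (4 * b + 2) + 1 = p + 4 * b + 3 := by omega
  have q3' : p + (4 * b + 3) = p + 4 * b + 3 := by omega
  have q4 : p + (4 * b + 3) + 1 = p + 4 * b + 4 := by omega
  rw [q1] at h0
  rw [q2] at h1
  rw [q3, q2'] at h2
  rw [q4, q3'] at h3
  rw [q1]
  have e2 : θ (p + 4 * b + 2) = θ (p + 4 * b) := mul_right_cancel (h1.trans h0.symm)
  have e3 : θ (p + (4 * b + 1)) = θ (p + 4 * b + 3) := by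
    rw [e2] at h2
    exact mul_left_cancel (h0.symm.trans h2)
  refine ⟨e2, ?_, e3⟩
  rw [← e3, ← h0] at h3
  exact mul_right_cancel h3

theorem g_eq (h : ∀ i, Side T i → LOI.ev (co T) (cl T) θ i = 1) (k : ℕ)
    (hk : k < (T.N + 1) * cK T) : θ (gA T k) = θ (gB T k) := by
  induction k with
  | zero =>
    unfold gA gB
    rw [if_pos rfl, if_pos rfl]
    exact start_eq T h
  | succ k ih =>
    have ih' := ih (by omega)
    have hb : k % cK T < cK T := Nat.mod_lt _ (cK_pos T)
    have hk' : k / cK T * cK T + k % cK T = k := by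
      rw [mul_comm]
      exact Nat.div_add_mod k (cK T)
    have hs : k / cK T ≤ T.N := by
      have : k / cK T < T.N + 1 := Nat.div_lt_of_lt_mul (by rw [mul_comm]; omega)
      omega
    have h1 := (detour T h (s := k / cK T) (b := k % cK T) hs hb (by rw [hk']; exact ih')).2.2
    unfold gA gB
    rw [if_neg (by omega), if_neg (by omega)]
    have h2 : k + 1 - 1 = k := by omega
    rw [h2]
    exact h1

/-- all even positions of a block have the value of the first position -/
theorem copy_eq (h : ∀ i, Side T i → LOI.ev (co T) (cl T) θ i = 1) {s a : ℕ} (hs : s ≤ T.N)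
    (ha : a ≤ 2 * cK T) : θ (4 + cB T * s + 2 * a) = θ (4 + cB T * s) := by
  have key : ∀ b ≤ cK T, θ (4 + cB T * s + 4 * b) = θ (4 + cB T * s) := by
    intro b
    induction b with
    | zero => intro _; rfl
    | succ b ih =>
      intro hb
      have hk : s * cK T + b < (T.N + 1) * cK T := by
        have h1 : (s + 1) * cK T ≤ (T.N + 1) * cK T := Nat.mul_le_mul_right _ (by omega)
        have h2 : (s + 1) * cK T = s * cK T + cK T := by ring
        omega
      have h1 := (detour T h hs (show b < cK T by omega) (g_eq T h _ hk)).2.1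
      have h2 : 4 + cB T * s + 4 * (b + 1) = 4 + cB T * s + 4 * b + 4 := by omega
      rw [h2, h1]
      exact ih (by omega)
  rcases Nat.even_or_odd' a with ⟨b, rfl | rfl⟩
  · have h1 : 2 * (2 * b) = 4 * b := by ring
    rw [h1]
    exact key b (by omega)
  · have hk : s * cK T + b < (T.N + 1) * cK T := by
      have h1 : (s + 1) * cK T ≤ (T.N + 1) * cK T := Nat.mul_le_mul_right _ (by omega)
      have h2 : (s + 1) * cK T = s * cK T + cK T := by ring
      omega
    have h1 := (detour T h hs (show b < cK T by omega) (g_eq T h _ hk)).1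
    have h2 : 4 + cB T * s + 2 * (2 * b + 1) = 4 + cB T * s + 4 * b + 2 := by omega
    rw [h2, h1]
    exact key b (by omega)

/-- the relator of a step -/
theorem ev_main (h : ∀ i, Side T i → LOI.ev (co T) (cl T) θ i = 1) {s : ℕ} (hs : s < T.N) {e : F.E}
    {b : Bool} (hst : T.st (s + 1) = some (e, b)) :
    LOI.ev (co T) (cl T) θ (4 + cB T * s + 4 * cK T) =
      if b = true then θ (4 + cB T * s) * θ (4 + cB T * T.fst (F.label e)) *
          (θ (4 + cB T * (s + 1)))⁻¹ * (θ (4 + cB T * T.fst (F.label e)))⁻¹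
      else θ (4 + cB T * (s + 1)) * θ (4 + cB T * T.fst (F.label e)) *
          (θ (4 + cB T * s))⁻¹ * (θ (4 + cB T * T.fst (F.label e)))⁻¹ := by
  have h1 : θ (4 + cB T * s + 4 * cK T) = θ (4 + cB T * s) := by
    have := copy_eq T h (s := s) (a := 2 * cK T) hs.le le_rfl
    have h2 : 2 * (2 * cK T) = 4 * cK T := by ring
    rw [h2] at this
    exact this
  have h2 : θ (4 + cB T * T.fst (F.label e) + 2 * (s + 1)) = θ (4 + cB T * T.fst (F.label e)) :=
    copy_eq T h (T.fst_le _) (by unfold cK; omega)
  have h3 : 4 + cB T * s + 4 * cK T + 1 = 4 + cB T * (s + 1) := by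
    unfold cB
    ring
  unfold LOI.ev
  rw [co_main T hst, cl_main T hst, h1, h2, h3]

end

section hom

variable {F : LOF} (T : Tour F)

/-- the values of the labels of the detours -/
def gam (k : ℕ) : Grp F.rel :=
  Nat.rec (motive := fun _ => Grp F.rel) (val F.rel [(T.w 0, true)])
    (fun k g => g⁻¹ * val F.rel [(T.w (k / cK T), true)] * g) k

theorem gam_zero : gam T 0 = val F.rel [(T.w 0, true)] := rfl

theorem gam_succ (k : ℕ) :
    gam T (k + 1) = (gam T k)⁻¹ * val F.rel [(T.w (k / cK T), true)] * gam T k := rfl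

/-- the values of the vertices -/
def fv (m : ℕ) : Grp F.rel :=
  if m < 4 then val F.rel [(T.w 0, true)] else
    if (m - 4) % cB T % 2 = 0 then val F.rel [(T.w ((m - 4) / cB T), true)]
    else gam T ((m - 4) / cB T * cK T + (m - 4) % cB T / 4 + 1)

theorem fv_lt {m : ℕ} (h : m < 4) : fv T m = val F.rel [(T.w 0, true)] := if_pos h

theorem fv_even {s a : ℕ} (h : a < cB T) (ha : a % 2 = 0) :
    fv T (4 + cB T * s + a) = val F.rel [(T.w s, true)] := by
  unfold fv
  rw [if_neg (by omega), mod_block T h, div_block T h, if_pos ha]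

theorem fv_odd {s a : ℕ} (h : a < cB T) (ha : a % 2 = 1) :
    fv T (4 + cB T * s + a) = gam T (s * cK T + a / 4 + 1) := by
  unfold fv
  rw [if_neg (by omega), mod_block T h, div_block T h, if_neg (by omega)]

theorem fv_gA (k : ℕ) : fv T (gA T k) = gam T k := by
  unfold gA
  rcases Nat.eq_zero_or_pos k with rfl | h
  · rw [if_pos rfl, fv_lt T (by omega), gam_zero]
  · obtain ⟨k, rfl⟩ := Nat.exists_eq_succ_of_ne_zero h.ne'
    rw [if_neg (by omega)]
    have h1 : k.succ - 1 = k / cK T * cK T + k % cK T := by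
      rw [mul_comm, Nat.div_add_mod]
      rfl
    have hb : k % cK T < cK T := Nat.mod_lt _ (cK_pos T)
    rw [h1, cpos_eq T _ _ hb, add_assoc (4 + cB T * (k / cK T)),
      fv_odd T (by unfold cB; omega) (by omega)]
    have h2 : (4 * (k % cK T) + 1) / 4 = k % cK T := by omega
    rw [h2, mul_comm (k / cK T), Nat.div_add_mod]

theorem fv_gB (k : ℕ) : fv T (gB T k) = gam T k := by
  unfold gB
  rcases Nat.eq_zero_or_pos k with rfl | h
  · rw [if_pos rfl, fv_lt T (by omega), gam_zero]
  · obtain ⟨k, rfl⟩ := Nat.exists_eq_succ_of_ne_zero h.ne'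
    rw [if_neg (by omega)]
    have h1 : k.succ - 1 = k / cK T * cK T + k % cK T := by
      rw [mul_comm, Nat.div_add_mod]
      rfl
    have hb : k % cK T < cK T := Nat.mod_lt _ (cK_pos T)
    rw [h1, cpos_eq T _ _ hb, add_assoc (4 + cB T * (k / cK T)),
      fv_odd T (by unfold cB; omega) (by omega)]
    have h2 : (4 * (k % cK T) + 3) / 4 = k % cK T := by omega
    rw [h2, mul_comm (k / cK T), Nat.div_add_mod]

/-- the relators hold in the group of the forest -/
theorem fv_rel (hT : ∀ s < T.N, T.st (s + 1) ≠ none) {i : ℕ} (hi : i < cn T) :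
    LOI.ev (co T) (cl T) (fv T) i = 1 := by
  have hB1 : 4 < cB T := by unfold cB cK; omega
  rcases Nat.lt_or_ge i 4 with h4 | h4
  · -- the first edges
    have e0 : fv T 0 = val F.rel [(T.w 0, true)] := fv_lt T (by omega)
    have e1 : fv T 1 = val F.rel [(T.w 0, true)] := fv_lt T (by omega)
    have e2 : fv T 2 = val F.rel [(T.w 0, true)] := fv_lt T (by omega)
    have e3 : fv T 3 = val F.rel [(T.w 0, true)] := fv_lt T (by omega)
    have e4 : fv T 4 = val F.rel [(T.w 0, true)] := fv_even T (s := 0) (a := 0) (by omega) rfl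
    have l0 : cl T 0 = 4 := by unfold cl; simp
    have l1 : cl T 1 = 0 := by unfold cl; simp
    have l2 : cl T 2 = 4 := by unfold cl; simp
    have l3 : cl T 3 = 1 := by unfold cl; simp
    unfold LOI.ev
    have hi' : i = 0 ∨ i = 1 ∨ i = 2 ∨ i = 3 := by omega
    rcases hi' with rfl | rfl | rfl | rfl
    · rw [l0]
      simp only [Nat.zero_add, e0, e1, e4]
      split <;> group
    · rw [l1]
      simp only [Nat.reduceAdd, e0, e1, e2]
      split <;> group
    · rw [l2]
      simp only [Nat.reduceAdd, e2, e3, e4]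
      split <;> group
    · rw [l3]
      simp only [Nat.reduceAdd, e1, e3, e4]
      split <;> group
  · obtain ⟨s, a, ha, rfl⟩ : ∃ s a, a < cB T ∧ i = 4 + cB T * s + a :=
      ⟨(i - 4) / cB T, (i - 4) % cB T, Nat.mod_lt _ (cB_pos T), by
        have := Nat.div_add_mod (i - 4) (cB T)
        omega⟩
    rcases Nat.lt_or_ge a (4 * cK T) with ha' | ha'
    · have h1 : 4 + cB T * s + a + 1 = 4 + cB T * s + (a + 1) := by omega
      rcases Nat.mod_two_eq_zero_or_one a with hp | hp
      · rw [ev_true (by rw [co_block T ha', hp]; rfl), cl_block T ha', if_pos hp, fv_gA,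
          fv_even T ha hp, h1, fv_odd T (by unfold cB; omega) (by omega)]
        have h2 : (a + 1) / 4 = a / 4 := by omega
        have h3 : (s * cK T + a / 4) / cK T = s := by
          rw [mul_comm, Nat.mul_add_div (cK_pos T), Nat.div_eq_of_lt (by omega), add_zero]
        rw [h2, gam_succ, h3]
        group
      · rw [ev_false (by rw [co_block T ha', hp]; rfl), cl_block T ha', if_neg (by omega), fv_gB,
          fv_odd T ha hp, h1, fv_even T (by unfold cB; omega) (by omega)]
        have h3 : (s * cK T + a / 4) / cK T = s := by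
          rw [mul_comm, Nat.mul_add_div (cK_pos T), Nat.div_eq_of_lt (by omega), add_zero]
        rw [gam_succ, h3]
        group
    · have ha2 : a = 4 * cK T := by
        unfold cB at ha
        omega
      subst ha2
      have hs : s < T.N := by
        by_contra hcon
        rw [not_lt] at hcon
        have h1 : cB T * T.N ≤ cB T * s := Nat.mul_le_mul_left _ hcon
        have h2 : (T.N + 1) * cB T = cB T * T.N + cB T := by ring
        unfold cn at hi
        rw [h2] at hi
        have h3 : cB T = 4 * cK T + 1 := rfl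
        omega
      rcases hst : T.st (s + 1) with _ | ⟨e, b⟩
      · exact absurd hst (hT s hs)
      · have h1 : 4 + cB T * s + 4 * cK T + 1 = 4 + cB T * (s + 1) + 0 := by
          unfold cB
          ring
        have hfi : fv T (4 + cB T * s + 4 * cK T) = val F.rel [(T.w s, true)] :=
          fv_even T ha (by omega)
        have hfi1 : fv T (4 + cB T * s + 4 * cK T + 1) = val F.rel [(T.w (s + 1), true)] := by
          rw [h1]
          exact fv_even T (cB_pos T) rfl
        have hfl : fv T (cl T (4 + cB T * s + 4 * cK T)) = val F.rel [(F.label e, true)] := by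
          rw [cl_main T hst, fv_even T (by unfold cB cK; omega) (by omega), T.w_fst]
        have hrel : val F.rel [(F.tail e, true)] * val F.rel [(F.label e, true)] =
            val F.rel [(F.label e, true)] * val F.rel [(F.head e, true)] := by
          have h1 : val F.rel [(F.tail e, true), (F.label e, true), (F.head e, false),
            (F.label e, false)] = 1 := val_rel F.rel e
          rw [val_cons, val_cons F.rel (F.label e, true), val_cons F.rel (F.head e, false),
            val_inv, val_inv, ← mul_assoc, ← mul_assoc, mul_inv_eq_one,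
            mul_inv_eq_iff_eq_mul] at h1
          exact h1
        cases b with
        | true =>
          obtain ⟨h2, h3⟩ := T.fwd s hs e hst
          rw [ev_true (co_main T hst), hfi, hfi1, hfl, h2, h3]
          exact hrel
        | false =>
          obtain ⟨h2, h3⟩ := T.bwd s hs e hst
          rw [ev_false (co_main T hst), hfi, hfi1, hfl, h2, h3]
          exact hrel

end hom

/-- **Transfer**: the chain of a tour of a non-aspherical forest is not aspherical. -/
theorem chain_transfer {F : LOF} (T : Tour F) (hT : ∀ s < T.N, T.st (s + 1) ≠ none) (S : LOI)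
    (hn : S.n = cn T) (ho : S.o = co T) (hl : S.l = cl T) (hF : ¬ Aspherical F.rel) :
    ¬ Aspherical S.rel := by
  intro hS
  apply hF
  have hblk : ∀ s, s ≤ T.N → 4 + cB T * s < cn T := by
    intro s hs
    have h1 : cB T * s ≤ cB T * T.N := Nat.mul_le_mul_left _ hs
    have h2 : (T.N + 1) * cB T = cB T * T.N + cB T := by ring
    have h3 : 4 < cB T := by unfold cB cK; omega
    unfold cn
    omega
  have hmain : ∀ s, s < T.N → 4 + cB T * s + 4 * cK T < cn T := by
    intro s hs
    have h1 : cB T * (s + 1) ≤ cB T * T.N := Nat.mul_le_mul_left _ hs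
    have h2 : (T.N + 1) * cB T = cB T * T.N + cB T := by ring
    have h3 : cB T * (s + 1) = cB T * s + cB T := by ring
    have h4 : cB T = 4 * cK T + 1 := rfl
    unfold cn
    omega
  refine transfer F.rel S.rel
    (fun x => ⟨4 + cB T * T.fst x, by rw [hn]; exact (hblk _ (T.fst_le x)).trans (Nat.lt_succ_self _)⟩)
    (fun e => ⟨4 + cB T * T.tm e + 4 * cK T, by rw [hn]; exact hmain _ (T.tm_lt e)⟩) T.tm
    T.tm_inj ?_ ?_ hS
  · -- the homomorphism to the group of the forest
    obtain ⟨ψ, hψ⟩ := exists_map S.rel (FreeGroup.lift fun m : Fin (S.n + 1) => fv T m) (fun i => by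
      rw [LOI.lift_rel, ho, hl]
      exact fv_rel T hT (hn ▸ i.2))
    refine ⟨ψ, fun x => ?_⟩
    rw [← of_val]
    refine (hψ _).trans ?_
    rw [FreeGroup.lift_apply_of]
    show fv T (4 + cB T * T.fst x + 0) = _
    rw [fv_even T (cB_pos T) rfl, T.w_fst]
  · -- the relators
    intro G _ Θ e₀ hΘ
    let θ : ℕ → G := fun m => if h : m < S.n + 1 then Θ ⟨m, h⟩ else 1
    have hθ : ∀ m : Fin (S.n + 1), θ m = Θ m := fun m => dif_pos m.2
    have hΘθ : Θ = fun m : Fin (S.n + 1) => θ m := funext fun m => (hθ m).symm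
    have hev : ∀ i, i < cn T → i ≠ 4 + cB T * T.tm e₀ + 4 * cK T →
        LOI.ev (co T) (cl T) θ i = 1 := by
      intro i hi hne
      have h1 := hΘ ⟨i, hn ▸ hi⟩ (fun h => hne (congrArg Fin.val h))
      rw [hΘθ, LOI.lift_rel, ho, hl] at h1
      exact h1
    have hside : ∀ i, Side T i → LOI.ev (co T) (cl T) θ i = 1 := fun i hi =>
      hev i hi.1 (hi.2 _)
    have hmi : ∀ s t, 4 + cB T * s + 4 * cK T = 4 + cB T * t + 4 * cK T → s = t := by
      intro s t h
      have h1 : cB T * s = cB T * t := by omega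
      exact Nat.eq_of_mul_eq_mul_left (cB_pos T) h1
    have htour := T.relations (fun s => θ (4 + cB T * s)) (T.tm e₀) (T.tm_lt e₀).le (by
      intro s hs e b hst
      have hsN : s < T.N := hs.trans (T.tm_lt e₀)
      have h1 := hev _ (hmain s hsN) (fun h => by
        have := hmi _ _ h
        omega)
      rw [ev_main T hside hsN hst] at h1
      unfold Tour.StepRel
      cases b with
      | true =>
        rw [if_pos rfl, mul_inv_eq_one, mul_inv_eq_iff_eq_mul] at h1
        rw [if_pos rfl]
        exact h1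
      | false =>
        rw [if_neg Bool.false_ne_true, mul_inv_eq_one, mul_inv_eq_iff_eq_mul] at h1
        rw [if_neg Bool.false_ne_true]
        exact h1)
    have hσ : ∀ x : F.V, Θ ⟨4 + cB T * T.fst x, by
        rw [hn]; exact (hblk _ (T.fst_le x)).trans (Nat.lt_succ_self _)⟩ =
        θ (4 + cB T * T.fst x) := fun x => (hθ _).symm
    refine ⟨fun e he => ?_, ?_⟩
    · obtain ⟨b, hb⟩ := T.tm_spec e
      have h1 := htour.2 (T.tm e) he e b hb
      unfold LOF.rel
      rw [lift_four, mul_inv_eq_one, mul_inv_eq_iff_eq_mul]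
      simp only [hσ]
      exact h1
    · obtain ⟨b, hb⟩ := T.tm_spec e₀
      have hlt := T.tm_lt e₀
      have h0 : FreeGroup.lift Θ (FreeGroup.mk (S.rel
          ⟨4 + cB T * T.tm e₀ + 4 * cK T, by rw [hn]; exact hmain _ hlt⟩)) =
          LOI.ev (co T) (cl T) θ (4 + cB T * T.tm e₀ + 4 * cK T) := by
        rw [hΘθ, LOI.lift_rel, ho, hl]
      refine Eq.trans ?_ h0.symm
      rw [ev_main T hside hlt hb]
      have h2 := htour.1 (T.tm e₀) le_rfl
      have h3 := T.fst_w_tm e₀
      unfold LOF.rel
      rw [lift_four]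
      simp only [hσ]
      cases b with
      | true =>
        obtain ⟨h4, h5⟩ := T.fwd _ hlt e₀ hb
        rw [if_pos rfl]
        rw [h4] at h2
        rw [h5] at h3
        rw [h3]
        have h2' : θ (4 + cB T * T.tm e₀) = θ (4 + cB T * T.fst (F.tail e₀)) := h2
        rw [h2']
      | false =>
        obtain ⟨h4, h5⟩ := T.bwd _ hlt e₀ hb
        rw [if_neg Bool.false_ne_true]
        rw [h4] at h2
        rw [h5] at h3
        rw [h3]
        have h2' : θ (4 + cB T * T.tm e₀) = θ (4 + cB T * T.fst (F.head e₀)) := h2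
        rw [h2']

end Pool.Agent.OC
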