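import Pool.Agent.OC.Defs
import Pool.Agent.ZO.Tour
import Mathlib.Combinatorics.SimpleGraph.Hasse

/-!
# Labelled oriented intervals in which every vertex is the label of at most two edges: definitions
-/

set_option autoImplicit false

open scoped BigOperators

namespace Pool.Agent.OC

open Pool.Agent.FoxAsph Pool.Agent.WT Pool.Agent.RelGap Pool.Agent.ZO

/-- A labelled oriented interval with the vertices `0, …, n`: the edge `i` joins `i` to `i + 1`, its
tail is `i` if `o i` is true and `i + 1` otherwise, and its label is `l i`. -/
structure LOI where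
  n : ℕ
  o : ℕ → Bool
  l : ℕ → ℕ
  le : ∀ i < n, l i ≤ n

/-- the label as a vertex -/
def LOI.lab (S : LOI) (i : Fin S.n) : Fin (S.n + 1) := ⟨S.l i, by have := S.le i i.2; omega⟩

/-- the relators -/
def LOI.rel (S : LOI) (i : Fin S.n) : Word (Fin (S.n + 1)) :=
  if S.o i then [(i.castSucc, true), (S.lab i, true), (i.succ, false), (S.lab i, false)]
  else [(i.succ, true), (S.lab i, true), (i.castSucc, false), (S.lab i, false)]

/-- reduced, and every vertex is the label of at most two edges -/
structure LOI.Good (S : LOI) : Prop where
  ne : ∀ i < S.n, S.l i ≠ i ∧ S.l i ≠ i + 1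
  red : ∀ i, i + 1 < S.n → S.o i ≠ S.o (i + 1) → S.l i ≠ S.l (i + 1)
  two : ∀ i j k, i < j → j < k → k < S.n → ¬ (S.l i = S.l j ∧ S.l j = S.l k)

section chain

variable {F : LOF} (T : Tour F)

/-- the number of double detours in a block -/
def cK : ℕ := T.N + 1

/-- the length of a block -/
def cB : ℕ := 4 * cK T + 1

/-- the first vertex of the double detour `k` -/
def cpos (k : ℕ) : ℕ := 4 + cB T * (k / cK T) + 4 * (k % cK T)

/-- the first label of the double detour `k` -/
def gA (k : ℕ) : ℕ := if k = 0 then 2 else cpos T (k - 1) + 1

/-- the second label of the double detour `k` -/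
def gB (k : ℕ) : ℕ := if k = 0 then 3 else cpos T (k - 1) + 3

/-- The labels of the chain of the tour `T`: four edges of a trivial interval, then for every time `s`
of the tour a block of `cK` double detours, that is `4 * cK` edges, and the edge of the step from `s`
to `s + 1`. -/
noncomputable def cl (i : ℕ) : ℕ :=
  if i = 0 then 4 else if i = 1 then 0 else if i = 2 then 4 else if i = 3 then 1 else
    if (i - 4) % cB T < 4 * cK T then
      (if (i - 4) % cB T % 2 = 0 then gA T ((i - 4) / cB T * cK T + (i - 4) % cB T / 4)
        else gB T ((i - 4) / cB T * cK T + (i - 4) % cB T / 4))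
    else match T.st ((i - 4) / cB T + 1) with
      | some (e, _) => 4 + cB T * T.fst (F.label e) + 2 * ((i - 4) / cB T + 1)
      | none => 0

/-- the orientations of the chain -/
def co (i : ℕ) : Bool :=
  if i < 3 then false else if i = 3 then true else
    if (i - 4) % cB T < 4 * cK T then decide ((i - 4) % cB T % 2 = 0)
    else match T.st ((i - 4) / cB T + 1) with
      | some (_, b) => b
      | none => false

/-- the last vertex of the chain -/
def cn : ℕ := 3 + (T.N + 1) * cB T

end chain

end Pool.Agent.OC
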