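import Pool.Agent.OC3.ToLot
import Pool.Agent.OC3.ChainGood
import Pool.Agent.OC3.ChainTransfer
import Pool.Agent.OC2.Pattern2
import Pool.Agent.OC.Lot

/-!
# A non-aspherical interval in which every vertex is the label of at most two edges
-/

set_option autoImplicit false

namespace Pool.Agent.OC

open Pool.Agent.FoxAsph Pool.Agent.WT Pool.Agent.RelGap Pool.Agent.ZO

theorem exists_interval (F : LOF) (hF : ¬ Aspherical F.rel) :
    ∃ (n : ℕ) (Γ : LOT (Fin n)), Γ.graph = SimpleGraph.pathGraph n ∧ Γ.Reduced ∧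
      (∀ v, {e | Γ.label e = v}.ncard ≤ 2) ∧ ¬ LotAspherical Γ := by
  obtain ⟨n, Γ, hΓ⟩ := lot_of_lof F hF
  obtain ⟨inst, hna⟩ : ∃ inst : Fintype Γ.graph.edgeSet, ¬ Aspherical Γ.rel := by
    unfold LotAspherical at hΓ
    push Not at hΓ
    exact hΓ
  have hne : Nonempty (Fin n) := Γ.isTree.connected.nonempty
  obtain ⟨x₀⟩ := hne
  obtain ⟨T, hT⟩ := exists_tour_full (lotF Γ inst) (lotF_conn Γ inst) x₀
  obtain ⟨Γ', h1, h2, h3, h4⟩ := LOI.exists_lot ⟨cn T, co T, cl T, cl_le T⟩ (cl_good T hT)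
    (chain_transfer T hT _ rfl rfl rfl hna)
  exact ⟨_, Γ', h1, h2, h3, h4⟩

end Pool.Agent.OC
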