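import Pool.Agent.OC3.Defs
import Pool.Agent.OC.Transport

/-!
# A labelled oriented interval is a labelled oriented tree
-/

set_option autoImplicit false

open scoped BigOperators

namespace Pool.Agent.OC

open Pool.Agent.FoxAsph Pool.Agent.WT Pool.Agent.RelGap Pool.Agent.ZO

/-- the edges of the path -/
noncomputable def pathEdge (n : ℕ) : Fin n ≃ (SimpleGraph.pathGraph (n + 1)).edgeSet :=
  Equiv.ofBijective (fun i => ⟨s(i.castSucc, i.succ), by
    rw [SimpleGraph.mem_edgeSet, SimpleGraph.pathGraph_adj]
    left
    rw [Fin.val_castSucc, Fin.val_succ]⟩) (by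
    constructor
    · intro i j hij
      have h := congrArg Subtype.val hij
      simp only at h
      rw [Sym2.eq_iff] at h
      rcases h with ⟨h1, _⟩ | ⟨h1, h2⟩
      · exact Fin.castSucc_injective n h1
      · have h3 := congrArg Fin.val h1
        have h4 := congrArg Fin.val h2
        rw [Fin.val_castSucc, Fin.val_succ] at h3 h4
        omega
    · rintro ⟨e, he⟩
      induction e using Sym2.ind with
      | _ a b =>
        have h := he
        rw [SimpleGraph.mem_edgeSet, SimpleGraph.pathGraph_adj] at h
        rcases h with h | h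
        · refine ⟨⟨a, by have := b.2; omega⟩, Subtype.ext ?_⟩
          simp only
          rw [Sym2.eq_iff]
          left
          constructor
          · exact Fin.ext rfl
          · exact Fin.ext h
        · refine ⟨⟨b, by have := a.2; omega⟩, Subtype.ext ?_⟩
          simp only
          rw [Sym2.eq_iff]
          right
          constructor
          · exact Fin.ext rfl
          · exact Fin.ext h)

theorem pathEdge_apply (n : ℕ) (i : Fin n) :
    ((pathEdge n i : (SimpleGraph.pathGraph (n + 1)).edgeSet) : Sym2 (Fin (n + 1))) =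
      s(i.castSucc, i.succ) := rfl

theorem pathGraph_isTree' (n : ℕ) : (SimpleGraph.pathGraph (n + 1)).IsTree := by
  classical
  rw [SimpleGraph.isTree_iff_connected_and_card]
  refine ⟨SimpleGraph.pathGraph_connected n, ?_⟩
  rw [← Nat.card_congr (pathEdge n), Nat.card_eq_fintype_card, Nat.card_eq_fintype_card,
    Fintype.card_fin, Fintype.card_fin]

/-- the labelled oriented tree of a labelled oriented interval -/
noncomputable def LOI.toLot (S : LOI) : LOT (Fin (S.n + 1)) where
  graph := SimpleGraph.pathGraph (S.n + 1)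
  isTree := pathGraph_isTree' S.n
  tail e := if S.o ((pathEdge S.n).symm e) then ((pathEdge S.n).symm e).castSucc
    else ((pathEdge S.n).symm e).succ
  head e := if S.o ((pathEdge S.n).symm e) then ((pathEdge S.n).symm e).succ
    else ((pathEdge S.n).symm e).castSucc
  label e := S.lab ((pathEdge S.n).symm e)
  ends := by
    intro e
    have h1 : (e : Sym2 (Fin (S.n + 1))) = s(((pathEdge S.n).symm e).castSucc,
        ((pathEdge S.n).symm e).succ) := by
      rw [← pathEdge_apply, Equiv.apply_symm_apply]
    rw [h1]
    split_ifs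
    · rfl
    · exact Sym2.eq_swap

theorem LOI.toLot_rel (S : LOI) (i : Fin S.n) : S.toLot.rel (pathEdge S.n i) = S.rel i := by
  unfold LOT.rel LOI.rel LOI.toLot
  simp only [Equiv.symm_apply_apply]
  by_cases h : S.o i = true
  · simp only [h, if_true]
  · simp only [h, Bool.false_eq_true, if_false]

theorem LOI.exists_lot (S : LOI) (hS : S.Good) (hna : ¬ Aspherical S.rel) :
    ∃ Γ : LOT (Fin (S.n + 1)), Γ.graph = SimpleGraph.pathGraph (S.n + 1) ∧ Γ.Reduced ∧
      (∀ v, {e | Γ.label e = v}.ncard ≤ 2) ∧ ¬ LotAspherical Γ := by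
  classical
  refine ⟨S.toLot, rfl, ⟨?_, ?_⟩, ?_, ?_⟩
  · intro e
    obtain ⟨i, rfl⟩ := (pathEdge S.n).surjective e
    have h1 := (hS.ne i i.2).1
    have h2 := (hS.ne i i.2).2
    have h3 : S.lab i ≠ i.castSucc := fun h => h1 (congrArg Fin.val h)
    have h4 : S.lab i ≠ i.succ := fun h => h2 (congrArg Fin.val h)
    unfold LOI.toLot
    simp only [Equiv.symm_apply_apply]
    split_ifs
    · exact ⟨h3, h4⟩
    · exact ⟨h4, h3⟩
  · intro e f hef h
    obtain ⟨i, rfl⟩ := (pathEdge S.n).surjective e
    obtain ⟨j, rfl⟩ := (pathEdge S.n).surjective f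
    have hij : i ≠ j := fun h => hef (congrArg _ h)
    have hij' : (i : ℕ) ≠ j := fun h => hij (Fin.ext h)
    unfold LOI.toLot at h ⊢
    simp only [Equiv.symm_apply_apply] at h ⊢
    intro hl
    have hl' : S.l i = S.l j := congrArg Fin.val hl
    -- adjacent indices with different orientations
    have key : ∀ a b : Fin S.n, (a : ℕ) < b → (S.o a ≠ S.o b ∧ (b : ℕ) = a + 1) →
        S.l a ≠ S.l b := by
      intro a b _ ⟨h1, h2⟩
      have h3 := hS.red a (by have := b.2; omega)
      rw [← h2] at h3
      exact h3 h1
    have hadj : S.o i ≠ S.o j ∧ ((j : ℕ) = i + 1 ∨ (i : ℕ) = j + 1) := by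
      have e1 : ∀ a : Fin S.n, ((a.castSucc : Fin (S.n + 1)) : ℕ) = a := fun a => rfl
      have e2 : ∀ a : Fin S.n, ((a.succ : Fin (S.n + 1)) : ℕ) = a + 1 := fun a => rfl
      rcases h with h | h
      · have h' := congrArg Fin.val h
        rcases hoi : S.o i with _ | _ <;> rcases hoj : S.o j with _ | _ <;>
          simp only [hoi, hoj, Bool.false_eq_true, if_false, if_true, e1, e2] at h'
        · omega
        · exact ⟨by simp, by omega⟩
        · exact ⟨by simp, by omega⟩
        · omega
      · have h' := congrArg Fin.val h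
        rcases hoi : S.o i with _ | _ <;> rcases hoj : S.o j with _ | _ <;>
          simp only [hoi, hoj, Bool.false_eq_true, if_false, if_true, e1, e2] at h'
        · omega
        · exact ⟨by simp, by omega⟩
        · exact ⟨by simp, by omega⟩
        · omega
    obtain ⟨ho, h1 | h1⟩ := hadj
    · exact key i j (by omega) ⟨ho, h1⟩ hl'
    · exact key j i (by omega) ⟨ho.symm, h1⟩ hl'.symm
  · intro v
    by_contra hcon
    rw [not_le, Set.two_lt_ncard_iff (Set.toFinite _)] at hcon
    obtain ⟨e, f, g, he, hf, hg, h1, h2, h3⟩ := hcon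
    obtain ⟨i, rfl⟩ := (pathEdge S.n).surjective e
    obtain ⟨j, rfl⟩ := (pathEdge S.n).surjective f
    obtain ⟨k, rfl⟩ := (pathEdge S.n).surjective g
    have hlab : ∀ a : Fin S.n, (S.toLot.label (pathEdge S.n a) = v) → S.l a = v := by
      intro a ha
      unfold LOI.toLot at ha
      simp only [Equiv.symm_apply_apply] at ha
      exact congrArg Fin.val ha
    have hi := hlab i he
    have hj := hlab j hf
    have hk := hlab k hg
    have hij : (i : ℕ) ≠ j := fun h => h1 (congrArg _ (Fin.ext h))
    have hik : (i : ℕ) ≠ k := fun h => h2 (congrArg _ (Fin.ext h))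
    have hjk : (j : ℕ) ≠ k := fun h => h3 (congrArg _ (Fin.ext h))
    have key : ∀ a b c : Fin S.n, (a : ℕ) < b → (b : ℕ) < c → S.l a = v → S.l b = v →
        S.l c = v → False := by
      intro a b c hab hbc ha hb hc
      exact hS.two a b c hab hbc c.2 ⟨ha.trans hb.symm, hb.trans hc.symm⟩
    rcases Nat.lt_or_gt_of_ne hij with h4 | h4 <;> rcases Nat.lt_or_gt_of_ne hik with h5 | h5 <;>
      rcases Nat.lt_or_gt_of_ne hjk with h6 | h6
    · exact key i j k h4 h6 hi hj hk
    · exact key i k j h5 h6 hi hk hj
    · omega
    · exact key k i j h5 h4 hk hi hj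
    · exact key j i k h4 h5 hj hi hk
    · omega
    · exact key j k i h6 h5 hj hk hi
    · exact key k j i h6 h4 hk hj hi
  · intro hL
    let _ : Fintype S.toLot.graph.edgeSet := Fintype.ofEquiv _ (pathEdge S.n)
    refine not_aspherical_of_injective S.rel S.toLot.rel id (pathEdge S.n)
      (pathEdge S.n).injective (fun i => ?_) (MonoidHom.id (Grp S.rel)) (fun _ _ h => h)
      (fun x => val S.rel [(x, true)]) (fun x => rfl) (fun k => ?_) hna (hL inferInstance)
    · rw [LOI.toLot_rel]
      simp
    · obtain ⟨i, rfl⟩ := (pathEdge S.n).surjective k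
      rw [LOI.toLot_rel]
      have h1 : ∀ w : Word (Fin (S.n + 1)),
          FreeGroup.lift (fun x => val S.rel [(x, true)]) (FreeGroup.mk w) = val S.rel w := by
        intro w
        induction w with
        | nil => rw [lift_nil, val_nil]
        | cons l w ih =>
          obtain ⟨x, b⟩ := l
          rw [lift_cons, ih, val_cons S.rel (x, b) w]
          cases b with
          | true => rw [if_pos rfl]
          | false => rw [if_neg Bool.false_ne_true, val_inv]
      rw [h1, val_rel]

end Pool.Agent.OC
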